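import Pool.Agent.Lib_MP_944b5f_al.Proof

/-!
# The clone generated by `T_2` is `Pol(T_2)`
-/

namespace Pool.Agent.Results.MP_944b5f_al.CloneT2

open Pool.Agent.Lib_MP_944b5f_al

/-- The clone generated by `T_2`, the set of all nowhere 1-1 binary operations on `ω`, is
`Pol(T_2)`, the largest clone on `ω` whose binary fragment is `T_2`. -/
theorem result : IsPol T2 (cloneGeneratedBy (ofBinary '' T2)) :=
  main

end Pool.Agent.Results.MP_944b5f_al.CloneT2
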